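import Pool.Agent.Q39.SP.WC

/-!
# Hybrids of deep subgroups of arithmetic lattices

Let `W 0`, `W 1` be hyperplanes of the space of the standard Hermitian form of signature `(n,1)` whose
intersection `W₃` has signature `(n-2,1)`, and let `Γ i` be a (discrete) arithmetic lattice of the
first kind of `SU(W i)`, given by an anisotropic Hermitian form `X i` over a CM field `E i` for which
`W₃` is rational; the two fields may be different. Then there are subgroups `Γ' i` of finite index in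
`Γ i`, containing `Γ 0 ∩ Γ 1`, such that for all `Δ i ≤ Γ' i` with
`Δ 0 ∩ SU(W₃) = Δ 1 ∩ SU(W₃) = Δ 0 ∩ Δ 1` the hybrid of `Δ 0`, `Δ 1` is a discrete amalgam and not a
lattice of `SU(n,1)`. (Proof: `Pool.Agent.Q39.SP.WC`, from the hand-in `WideCollars` of helper107.)
-/

set_option autoImplicit false

namespace Pool.Agent.Results.MP_5d4057_al.ArithmeticPieces

open Pool.Agent.Q107.Hunt Matrix

/-- **Hybrids of deep subgroups of arithmetic lattices of the first kind.** -/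
theorem result (n : ℕ) (W : Fin 2 → Submodule ℂ (Fin (n + 1) → ℂ))
    (e : Fin 2 → Fin (n + 1) → ℂ) (hWe : Config n W e)
    (E : Fin 2 → IntermediateField ℚ ℂ) (X : ∀ i, Submodule (E i) (Fin (n + 1) → ℂ))
    (Γ : Fin 2 → Subgroup (SpecialLinearGroup (Fin (n + 1)) ℂ))
    (hΓ : ∀ i, IsArithFK n (E i) (W i) (X i) (Γ i)) (hd : ∀ i, DiscreteTopology (Γ i))
    (haniso : ∀ i, ∀ x ∈ X i, herm x x = 0 → x = 0)
    (hrat : ∀ i, ∃ c : ℂ, c ≠ 0 ∧ c • e i ∈ X i) :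
    ∃ Γ' : Fin 2 → Subgroup (SpecialLinearGroup (Fin (n + 1)) ℂ),
      (∀ i, Γ 0 ⊓ Γ 1 ≤ Γ' i ∧ Γ' i ≤ Γ i ∧ (Γ' i).relIndex (Γ i) ≠ 0) ∧
      ∀ Δ : Fin 2 → Subgroup (SpecialLinearGroup (Fin (n + 1)) ℂ), (∀ i, Δ i ≤ Γ' i) →
        (∀ i, Δ i ⊓ suOf n (W 0 ⊓ W 1) ≤ Δ 0 ⊓ Δ 1) →
        DiscreteAmalgam Δ ∧ ¬ IsLatticeOf n ⊤ (⨆ i, Δ i) :=
  (Pool.Agent.Q39.SP.WC.joined n W e hWe).2 E X Γ hΓ hd haniso hrat

end Pool.Agent.Results.MP_5d4057_al.ArithmeticPieces
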