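import Pool.Agent.Q39.SP.WC

/-!
# Hybrids of discrete groups with wide collars

Let `W 0`, `W 1` be hyperplanes at the angle `φ ≤ π/2` of the space of the standard Hermitian form of
signature `(n,1)` whose intersection `W₃` has signature `(n-2,1)`, `e i` a unit vector of `W i`
orthogonal to `W₃`, and `Γ i` a discrete subgroup of `SU(W i)`. Let `ψ 0, ψ 1 > 0`, `ψ 0 + ψ 1 ≤ φ`,
and suppose `|⟨g e_i, e_i⟩| ≥ (1 + cos² ψ_i) / sin² ψ_i` for all `g ∈ Γ i` outside `Γ 0 ∩ Γ 1`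
(the collar of `W₃` in `Γ i \ H(W i)` is wide). Then the hybrid `⟨Γ 0, Γ 1⟩` is discrete and the
amalgamated product of `Γ 0`, `Γ 1` along `Γ 0 ∩ Γ 1`, and if `ψ 0 + ψ 1 < φ`, it is not a lattice.
(Proof: `Pool.Agent.Q39.SP.WC`, from the hand-in `WideCollars` of helper107.)
-/

set_option autoImplicit false

namespace Pool.Agent.Results.MP_5d4057_al.CollarCriterion

open Pool.Agent.Q107.Hunt Matrix

/-- **Hybrids of discrete groups with wide collars.** -/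
theorem result (n : ℕ) (W : Fin 2 → Submodule ℂ (Fin (n + 1) → ℂ))
    (e : Fin 2 → Fin (n + 1) → ℂ) (hWe : Config n W e)
    (Γ : Fin 2 → Subgroup (SpecialLinearGroup (Fin (n + 1)) ℂ)) (φ : ℝ) (ψ : Fin 2 → ℝ)
    (hφ : ‖herm (e 0) (e 1)‖ = Real.cos φ) (hφ2 : φ ≤ Real.pi / 2) (hψ : ∀ i, 0 < ψ i)
    (hψφ : ψ 0 + ψ 1 ≤ φ) (hΓ : ∀ i, Γ i ≤ suOf n (W i)) (hd : ∀ i, DiscreteTopology (Γ i))
    (hcol : ∀ i, ∀ g ∈ Γ i, g ∉ Γ 0 ⊓ Γ 1 →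
      (1 + Real.cos (ψ i) ^ 2) / Real.sin (ψ i) ^ 2 ≤ ‖herm (act g (e i)) (e i)‖) :
    DiscreteAmalgam Γ ∧ (ψ 0 + ψ 1 < φ → ¬ IsLatticeOf n ⊤ (⨆ i, Γ i)) :=
  (Pool.Agent.Q39.SP.WC.joined n W e hWe).1 Γ φ ψ hφ hφ2 hψ hψφ hΓ hd hcol

end Pool.Agent.Results.MP_5d4057_al.CollarCriterion
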