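import Pool.Agent.Q107.Hunt.Final
import Pool.Agent.Q107.Hunt.Field

/-! # Hunt hybrids of non-cocompact arithmetic lattices

`herm` is the standard Hermitian form of signature `(n,1)` on `ℂ^(n+1)`, `SU n` its special
unitary group, `suOf n W` the subgroup acting trivially on `W^⊥`, i.e. `SU(W)`.

`IsArith n E W X Γ`: `E` is an imaginary quadratic field, `X` is an isotropic Hermitian `E`-form of
the nondegenerate subspace `W`, and `Γ ≤ SU(W)` is commensurable with the stabiliser of an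
`𝒪_E`-lattice of `X`: the non-cocompact arithmetic lattices of `SU(W)`.

The theorem: let `W₁ ≠ W₂` be hyperplanes, `Γ₁, Γ₂` non-cocompact arithmetic lattices of
`SU(W₁)`, `SU(W₂)` with a common subgroup `Γ₃`, a non-cocompact arithmetic lattice of
`SU(W₁ ∩ W₂)`. If the hybrid `⟨Γ₁, Γ₂⟩` is discrete, then

* either the two fields are different, `n = 3`, the hyperplanes are orthogonal, and the hybrid is
  not virtually contained in an arithmetic lattice;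
* or the fields are equal, the angle `φ` of the hyperplanes has rational `cos² φ`, and there is an
  isotropic Hermitian `E`-form `X` of `ℂ^(n+1)` which is preserved by `⟨Γ₁, Γ₂⟩` if `Γᵢ` preserves
  `Xᵢ` (as arithmetic subgroups of `ℚ`-groups do), and an arithmetic lattice `Δ` of `SU(n,1)`,
  `Δ ~ SU(X, 𝒪_E)`, such that `Γᵢ ∩ Δ` has finite index in `Γᵢ`.
-/

namespace Pool.Agent.Results.MP_5d4057_al.CuspedHybrids

open Pool.Agent.Q107.Hunt Matrix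

theorem result (n : ℕ) (E₁ E₂ E₃ : IntermediateField ℚ ℂ)
    (W₁ W₂ : Submodule ℂ (Fin (n + 1) → ℂ))
    (X₁ : Submodule E₁ (Fin (n + 1) → ℂ)) (X₂ : Submodule E₂ (Fin (n + 1) → ℂ))
    (X₃ : Submodule E₃ (Fin (n + 1) → ℂ))
    (Γ₁ Γ₂ Γ₃ : Subgroup (SpecialLinearGroup (Fin (n + 1)) ℂ))
    (hW₁ : Module.finrank ℂ W₁ = n) (hW₂ : Module.finrank ℂ W₂ = n) (hne : W₁ ≠ W₂)
    (h₁ : IsArith n E₁ W₁ X₁ Γ₁) (h₂ : IsArith n E₂ W₂ X₂ Γ₂)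
    (h₃ : IsArith n E₃ (W₁ ⊓ W₂) X₃ Γ₃) (h₃₁ : Γ₃ ≤ Γ₁) (h₃₂ : Γ₃ ≤ Γ₂)
    (hd : DiscreteTopology (Γ₁ ⊔ Γ₂ : Subgroup (SpecialLinearGroup (Fin (n + 1)) ℂ))) :
    (E₁ ≠ E₂ ∧ n = 3 ∧
      (∀ u₁ u₂ : Fin (n + 1) → ℂ, (∀ w ∈ W₁, herm u₁ w = 0) → (∀ w ∈ W₂, herm u₂ w = 0) →
        herm u₁ u₂ = 0) ∧
      ∀ (E : IntermediateField ℚ ℂ) (X : Submodule E (Fin (n + 1) → ℂ))
        (Δ : Subgroup (SpecialLinearGroup (Fin (n + 1)) ℂ)), IsArith n E ⊤ X Δ →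
        ¬ (Δ.relIndex Γ₁ ≠ 0 ∧ Δ.relIndex Γ₂ ≠ 0)) ∨
    (E₁ = E₂ ∧
      (∀ u₁ u₂ : Fin (n + 1) → ℂ, (∀ w ∈ W₁, herm u₁ w = 0) → (∀ w ∈ W₂, herm u₂ w = 0) →
        ∃ r : ℚ, herm u₁ u₂ * herm u₂ u₁ = r * (herm u₁ u₁ * herm u₂ u₂)) ∧
      ∃ X : Submodule E₁ (Fin (n + 1) → ℂ), IsForm n E₁ ⊤ X ∧
        (∀ g ∈ suOf n W₁, Pres g (X₁ : Set (Fin (n + 1) → ℂ)) →
          Pres g (X : Set (Fin (n + 1) → ℂ))) ∧
        (∀ g ∈ suOf n W₂, Pres g (X₂ : Set (Fin (n + 1) → ℂ)) →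
          Pres g (X : Set (Fin (n + 1) → ℂ))) ∧
        ((∀ g ∈ Γ₁, Pres g (X₁ : Set (Fin (n + 1) → ℂ))) →
          (∀ g ∈ Γ₂, Pres g (X₂ : Set (Fin (n + 1) → ℂ))) →
          ∀ g ∈ Γ₁ ⊔ Γ₂, Pres g (X : Set (Fin (n + 1) → ℂ))) ∧
        ∃ Δ : Subgroup (SpecialLinearGroup (Fin (n + 1)) ℂ), IsArith n E₁ ⊤ X Δ ∧
          Δ.relIndex Γ₁ ≠ 0 ∧ Δ.relIndex Γ₂ ≠ 0) := by
  rcases main hW₁ hW₂ hne h₁ h₂ h₃ h₃₁ h₃₂ hd with ⟨hE, hn, ho⟩ | h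
  · left
    refine ⟨hE, hn, ho, fun E X Δ hΔ hv => hE ?_⟩
    rw [field_eq hΔ h₁ hv.1 (by omega), field_eq hΔ h₂ hv.2 (by omega)]
  · exact Or.inr h

end Pool.Agent.Results.MP_5d4057_al.CuspedHybrids
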