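import Pool.Agent.Q107.Hunt.Dens2

/-! # Orthogonal hybrids of arithmetic lattices of the first kind

`herm` is the standard Hermitian form of signature `(n,1)` on `ℂ^(n+1)`, `suOf n W` the subgroup
of `SU(n,1)` acting trivially on `W^⊥`, i.e. `SU(W)`.

`IsArithFK n E W X Γ`: `E` is a CM field, `X` is a Hermitian `E`-form of the nondegenerate
subspace `W`, definite at all places of `E` but the given one, and `Γ ≤ SU(W)` is commensurable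
with the stabiliser of an `𝒪_E`-lattice of `X`: the arithmetic lattices of the first kind,
cocompact or not.

`IsLatticeOf n W Γ`: `Γ` is a lattice of the group `SU(W)`.

The theorem: let `n ≥ 4`, let `W₁`, `W₂` be orthogonal hyperplanes whose intersection has an
isotropic vector, i.e. has signature `(n-2,1)`, let `Γᵢ` be an arithmetic lattice of the first kind
of `SU(Wᵢ)`, `i = 1, 2`, and let `Γ₃ ≤ Γ₁ ∩ Γ₂` be a lattice of `SU(W₁ ∩ W₂)`. Then the two CM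
fields are equal, and there are an admissible Hermitian `E`-form `X` of `ℂ^(n+1)` and an arithmetic
lattice `Δ ~ SU(X, 𝒪_E)` of the first kind of `SU(n,1)` such that `Γᵢ ∩ Δ` has finite index in
`Γᵢ`. The form `X` is preserved by `⟨Γ₁, Γ₂⟩` if `Γᵢ` preserves `Xᵢ` for `i = 1, 2`.
-/

namespace Pool.Agent.Results.MP_5d4057_al.OrthogonalHybrids

open Pool.Agent.Q107.Hunt Matrix

theorem result (n : ℕ) (hn : 4 ≤ n) (E₁ E₂ : IntermediateField ℚ ℂ)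
    (W₁ W₂ : Submodule ℂ (Fin (n + 1) → ℂ))
    (X₁ : Submodule E₁ (Fin (n + 1) → ℂ)) (X₂ : Submodule E₂ (Fin (n + 1) → ℂ))
    (Γ₁ Γ₂ Γ₃ : Subgroup (SpecialLinearGroup (Fin (n + 1)) ℂ))
    (hW₁ : Module.finrank ℂ W₁ = n) (hW₂ : Module.finrank ℂ W₂ = n)
    (horth : ∀ u₁ u₂ : Fin (n + 1) → ℂ, (∀ w ∈ W₁, herm u₁ w = 0) →
      (∀ w ∈ W₂, herm u₂ w = 0) → herm u₁ u₂ = 0)
    (hiso : ∃ p ∈ W₁ ⊓ W₂, p ≠ 0 ∧ herm p p = 0)
    (h₁ : IsArithFK n E₁ W₁ X₁ Γ₁) (h₂ : IsArithFK n E₂ W₂ X₂ Γ₂)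
    (h₃ : IsLatticeOf n (W₁ ⊓ W₂) Γ₃) (h₃₁ : Γ₃ ≤ Γ₁) (h₃₂ : Γ₃ ≤ Γ₂) :
    E₁ = E₂ ∧ ∃ (X : Submodule E₁ (Fin (n + 1) → ℂ))
      (Δ : Subgroup (SpecialLinearGroup (Fin (n + 1)) ℂ)), IsArithFK n E₁ ⊤ X Δ ∧
        Δ.relIndex Γ₁ ≠ 0 ∧ Δ.relIndex Γ₂ ≠ 0 ∧
        ((∀ g ∈ Γ₁, Pres g (X₁ : Set (Fin (n + 1) → ℂ))) →
          (∀ g ∈ Γ₂, Pres g (X₂ : Set (Fin (n + 1) → ℂ))) →
          ∀ g ∈ Γ₁ ⊔ Γ₂, Pres g (X : Set (Fin (n + 1) → ℂ))) :=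
  main3 hn hW₁ hW₂ horth hiso h₁ h₂ h₃ h₃₁ h₃₂

end Pool.Agent.Results.MP_5d4057_al.OrthogonalHybrids
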